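import Pool.Agent.BallSimp.HypMain

set_option autoImplicit false

open MeasureTheory Set

namespace Pool.Agent.Results.MP_034d00_gt.HypWeighted

/-- The hyperbolic volume of `H^d` in the Klein ball model (the open unit ball of `ℝ^d`): the measure with density
`(1 - |x|^2)^(-(d+1)/2)` with respect to Lebesgue measure. -/
noncomputable def hypVol (d : ℕ) : Measure (EuclideanSpace ℝ (Fin d)) :=
  volume.withDensity (fun x => ENNReal.ofReal ((1 - ‖x‖ ^ 2) ^ (-((d : ℝ) + 1) / 2)))

/-- The hyperbolic cosine of the hyperbolic distance of two points `x, c` of the Klein ball model. -/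
noncomputable def coshDist {d : ℕ} (x c : EuclideanSpace ℝ (Fin d)) : ℝ :=
  (1 - inner ℝ x c) / Real.sqrt ((1 - ‖x‖ ^ 2) * (1 - ‖c‖ ^ 2))

/-- The closed geodesic ball with centre `c` whose radius `r` has `cosh r = R`. -/
def hypBall {d : ℕ} (c : EuclideanSpace ℝ (Fin d)) (R : ℝ) : Set (EuclideanSpace ℝ (Fin d)) :=
  {x | ‖x‖ < 1 ∧ coshDist x c ≤ R}

/-- The simplex with vertices `v 0, …, v d` (geodesic convex hulls are convex hulls in the Klein model). -/
def simplex {d : ℕ} (v : Fin (d + 1) → EuclideanSpace ℝ (Fin d)) : Set (EuclideanSpace ℝ (Fin d)) :=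
  convexHull ℝ (Set.range v)

/-- Hyperbolic space, every dimension `d`. Let `w` be the vertices of a regular simplex centred at `c`, and `v` the
vertices of an arbitrary simplex of the same hyperbolic volume. Then for every ball `B` about `c`:
(1) if `B` is contained in the simplex of `v`, it is contained in the regular simplex (so the intersection
with the regular simplex has at least the same volume);
(2) the integral of `1 / cosh^(d+1)` of the distance to `c` over the part of `B` in the simplex of `v` is at most the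
one over the part of `B` in the regular simplex;
(3) the volume of the part of `B` in the simplex of `v` is at most `(cosh r)^(d+1)` times the volume of the part
of `B` in the regular simplex, `r` the radius of `B`. -/
theorem result : ∀ (d : ℕ) (c : EuclideanSpace ℝ (Fin d)) (v w : Fin (d + 1) → EuclideanSpace ℝ (Fin d)),
    ‖c‖ < 1 → (∀ i, ‖v i‖ < 1) → (∀ i, ‖w i‖ < 1) → AffineIndependent ℝ v → AffineIndependent ℝ w →
    (∃ s : ℝ, ∀ i j, i ≠ j → coshDist (w i) (w j) = s) → (∃ q : ℝ, ∀ i, coshDist (w i) c = q) →
    hypVol d (simplex w) = hypVol d (simplex v) →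
    ∀ R : ℝ,
      (hypBall c R ⊆ simplex v → hypBall c R ⊆ simplex w ∧
        hypVol d (hypBall c R ∩ simplex v) ≤ hypVol d (hypBall c R ∩ simplex w)) ∧
      (∫⁻ x in hypBall c R ∩ simplex v, ENNReal.ofReal (1 / coshDist x c ^ (d + 1)) ∂(hypVol d) ≤
        ∫⁻ x in hypBall c R ∩ simplex w, ENNReal.ofReal (1 / coshDist x c ^ (d + 1)) ∂(hypVol d)) ∧
      hypVol d (hypBall c R ∩ simplex v) ≤
        ENNReal.ofReal (R ^ (d + 1)) * hypVol d (hypBall c R ∩ simplex w) := by
  intro d c v w hc hv hw hva hwa hreg hcen hvol R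
  have hp : BallSimp.Pair c v w :=
    { hc := hc, hv := hv, hw := hw, hva := hva, hwa := hwa, hreg := hreg, hcen := hcen, hvol := hvol }
  have hcont := BallSimp.contain hp R
  have hint : ∀ u : Fin (d + 1) → EuclideanSpace ℝ (Fin d),
      ∫⁻ x in hypBall c R ∩ simplex u, ENNReal.ofReal (1 / coshDist x c ^ (d + 1)) ∂(hypVol d) =
        ∫⁻ x in BallSimp.hB c R ∩ convexHull ℝ (Set.range u), ENNReal.ofReal ((BallSimp.chd c x) ^ (-((d : ℝ) + 1)))
          ∂(BallSimp.muK d) := by
    intro u
    apply setLIntegral_congr_fun ((BallSimp.meas_hB c R).inter (BallSimp.isClosed_hull u).measurableSet)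
    intro x hx
    have h1 := BallSimp.one_le_chd hc hx.1.1
    beta_reduce
    congr 1
    have h2 : (-((d : ℝ) + 1)) = -((d + 1 : ℕ) : ℝ) := by push_cast; ring
    rw [h2, Real.rpow_neg (by linarith), Real.rpow_natCast, one_div]
    rfl
  refine ⟨fun hB => ?_, ?_, ?_⟩
  · have h1 : hypBall c R ⊆ simplex w := hcont hB
    refine ⟨h1, ?_⟩
    rw [Set.inter_eq_left.mpr hB, Set.inter_eq_left.mpr h1]
  · rw [hint v, hint w]
    exact BallSimp.weighted hp R
  · have h1 := BallSimp.factor hp R
    by_cases hR : 0 < R
    · have h2 : R ^ ((d : ℝ) + 1) = R ^ (d + 1) := by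
        rw [← Real.rpow_natCast]; push_cast; rfl
      rw [h2] at h1
      exact h1
    · have : hypBall c R = ∅ := by
        ext x
        simp only [hypBall, Set.mem_ofPred_eq, Set.mem_empty_iff_false, iff_false, not_and, not_le]
        intro hx
        have h3 := BallSimp.one_le_chd hc hx
        have h4 : coshDist x c = BallSimp.chd c x := rfl
        rw [h4]; linarith
      rw [this]; simp

end Pool.Agent.Results.MP_034d00_gt.HypWeighted
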