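import Pool.Agent.HCap.All

set_option autoImplicit false

open MeasureTheory Set

namespace Pool.Agent.Results.MP_034d00_gt.HypWindow

/-- The hyperbolic volume of `H^d` in the Klein ball model (the open unit ball of `ℝ^d`): the measure with density
`(1 - |x|^2)^(-(d+1)/2)` with respect to Lebesgue measure. -/
noncomputable def hypVol (d : ℕ) : Measure (EuclideanSpace ℝ (Fin d)) :=
  volume.withDensity (fun x => ENNReal.ofReal ((1 - ‖x‖ ^ 2) ^ (-((d : ℝ) + 1) / 2)))

/-- The hyperbolic cosine of the hyperbolic distance of two points `x, c` of the Klein ball model. -/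
noncomputable def coshDist {d : ℕ} (x c : EuclideanSpace ℝ (Fin d)) : ℝ :=
  (1 - inner ℝ x c) / Real.sqrt ((1 - ‖x‖ ^ 2) * (1 - ‖c‖ ^ 2))

/-- The closed geodesic ball with centre `c` whose radius `r` has `cosh r = R`. -/
def hypBall {d : ℕ} (c : EuclideanSpace ℝ (Fin d)) (R : ℝ) : Set (EuclideanSpace ℝ (Fin d)) :=
  {x | ‖x‖ < 1 ∧ coshDist x c ≤ R}

/-- The simplex with vertices `v 0, …, v d` (geodesic convex hulls are convex hulls in the Klein model). -/
def simplex {d : ℕ} (v : Fin (d + 1) → EuclideanSpace ℝ (Fin d)) : Set (EuclideanSpace ℝ (Fin d)) :=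
  convexHull ℝ (Set.range v)

/-- No point of the ball is beyond two facets of the simplex: of the barycentric coordinates of a point of the ball
with respect to the vertices `v` at most one is negative. -/
def Apart {d : ℕ} (c : EuclideanSpace ℝ (Fin d)) (R : ℝ) (v : Fin (d + 1) → EuclideanSpace ℝ (Fin d)) : Prop :=
  ∀ l : Fin (d + 1) → ℝ, ∑ i, l i = 1 → ∑ i, l i • v i ∈ hypBall c R → ∀ i j, i ≠ j → 0 ≤ l i ∨ 0 ≤ l j

/-- Hyperbolic space, every dimension `d ≥ 2`. Let `w` be the vertices of a regular simplex `T₀` centred at `c`, and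
`v` the vertices of an arbitrary simplex `T` of the same hyperbolic volume, `B` the ball of radius `r` about `c`,
`R = cosh r`. The part of `B` in `T` has at most the volume of the part of `B` in `T₀` if
`9 sinh² r ≤ 10 sinh² ρ` for some `ρ ≥ 0` such that the ball of radius `ρ` about `c` is contained in `T₀`
(`R₀ = cosh ρ`; the largest such `ρ` is the inradius of `T₀`). If no point of `B` is beyond two facets of `T` it is
also true if `d ≥ 3` and `2 sinh² r ≤ 3 sinh² ρ`, and if `sinh² r ≤ d sinh² ρ` for some `ρ ≥ 0` such that the ball of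
radius `ρ` about `c` is contained in `T`. -/
theorem result : ∀ (d : ℕ) (c : EuclideanSpace ℝ (Fin d)) (v w : Fin (d + 1) → EuclideanSpace ℝ (Fin d)),
    2 ≤ d → ‖c‖ < 1 → (∀ i, ‖v i‖ < 1) → (∀ i, ‖w i‖ < 1) → AffineIndependent ℝ v → AffineIndependent ℝ w →
    (∃ s : ℝ, ∀ i j, i ≠ j → coshDist (w i) (w j) = s) → (∃ q : ℝ, ∀ i, coshDist (w i) c = q) →
    hypVol d (simplex w) = hypVol d (simplex v) →
    ∀ R R₀ : ℝ, 1 ≤ R₀ →
      (hypBall c R₀ ⊆ simplex w ∧ 9 * (R ^ 2 - 1) ≤ 10 * (R₀ ^ 2 - 1) ∨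
        Apart c R v ∧ 3 ≤ d ∧ hypBall c R₀ ⊆ simplex w ∧ 2 * (R ^ 2 - 1) ≤ 3 * (R₀ ^ 2 - 1) ∨
        Apart c R v ∧ hypBall c R₀ ⊆ simplex v ∧ R ^ 2 - 1 ≤ (d : ℝ) * (R₀ ^ 2 - 1)) →
      hypVol d (hypBall c R ∩ simplex v) ≤ hypVol d (hypBall c R ∩ simplex w) := by
  intro d c v w hd hc hv hw hva hwa hreg hcen hvol R R₀ hR₀ h
  have hp : BallSimp.Pair c v w :=
    { hc := hc, hv := hv, hw := hw, hva := hva, hwa := hwa, hreg := hreg, hcen := hcen, hvol := hvol }
  exact HCap.fin d c v w hd hp R R₀ hR₀ h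

end Pool.Agent.Results.MP_034d00_gt.HypWindow
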