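import Pool.Agent.BallSimp.RegHMain
import Pool.Agent.BallSimp.RegS2

set_option autoImplicit false

open MeasureTheory Set

namespace Pool.Agent.Results.MP_034d00_gt.RegularAnyBall

/-- The spherical simplex in `S^d` with vertices `v 0, …, v d` (linearly independent unit vectors of `ℝ^(d+1)`): the
unit vectors in the convex cone they span. -/
def sphSimplex {d : ℕ} (v : Fin (d + 1) → EuclideanSpace ℝ (Fin (d + 1))) : Set (EuclideanSpace ℝ (Fin (d + 1))) :=
  {x | ‖x‖ = 1 ∧ ∃ a : Fin (d + 1) → ℝ, (∀ i, 0 ≤ a i) ∧ x = ∑ i, a i • v i}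

/-- The closed ball of `S^d` with centre `e`, whose radius has cosine `t`. -/
def sphBall {d : ℕ} (e : EuclideanSpace ℝ (Fin (d + 1))) (t : ℝ) : Set (EuclideanSpace ℝ (Fin (d + 1))) :=
  {x | ‖x‖ = 1 ∧ t ≤ inner ℝ x e}

/-- The hyperbolic volume of `H^d` in the Klein ball model (the open unit ball of `ℝ^d`): the measure with density
`(1 - |x|^2)^(-(d+1)/2)` with respect to Lebesgue measure. -/
noncomputable def hypVol (d : ℕ) : Measure (EuclideanSpace ℝ (Fin d)) :=
  volume.withDensity (fun x => ENNReal.ofReal ((1 - ‖x‖ ^ 2) ^ (-((d : ℝ) + 1) / 2)))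

/-- The hyperbolic cosine of the hyperbolic distance of two points `x, c` of the Klein ball model. -/
noncomputable def coshDist {d : ℕ} (x c : EuclideanSpace ℝ (Fin d)) : ℝ :=
  (1 - inner ℝ x c) / Real.sqrt ((1 - ‖x‖ ^ 2) * (1 - ‖c‖ ^ 2))

/-- The closed geodesic ball of `H^d` with centre `c` whose radius `r` has `cosh r = R`. -/
def hypBall {d : ℕ} (c : EuclideanSpace ℝ (Fin d)) (R : ℝ) : Set (EuclideanSpace ℝ (Fin d)) :=
  {x | ‖x‖ < 1 ∧ coshDist x c ≤ R}

/-- Spherical part: `w` are the vertices of a regular simplex of `S^d` centred at `e`, `v` those of any regular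
simplex of the same volume (`d`-dimensional Hausdorff measure), placed anywhere. For every ball `B` about `e`, the
intersection of `B` with the simplex of `v` has at most the volume of the intersection of `B` with the simplex of `w`. -/
def Spherical (d : ℕ) : Prop :=
  ∀ (e : EuclideanSpace ℝ (Fin (d + 1))) (t : ℝ) (v w : Fin (d + 1) → EuclideanSpace ℝ (Fin (d + 1))),
    ‖e‖ = 1 → (∀ i, ‖v i‖ = 1) → (∀ i, ‖w i‖ = 1) → LinearIndependent ℝ v → LinearIndependent ℝ w →
    (∃ s : ℝ, ∀ i j, i ≠ j → inner ℝ (v i) (v j) = s) → (∃ s : ℝ, ∀ i j, i ≠ j → inner ℝ (w i) (w j) = s) →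
    (∃ q : ℝ, 0 < q ∧ ∀ i, inner ℝ (w i) e = q) →
    Measure.hausdorffMeasure (d : ℝ) (sphSimplex w) = Measure.hausdorffMeasure (d : ℝ) (sphSimplex v) →
    Measure.hausdorffMeasure (d : ℝ) (sphBall e t ∩ sphSimplex v) ≤
      Measure.hausdorffMeasure (d : ℝ) (sphBall e t ∩ sphSimplex w)

/-- Hyperbolic part: `w` are the vertices of a regular simplex of `H^d` centred at `c`, `v` those of any regular
simplex of the same volume, placed anywhere. For every ball `B` about `c`, the intersection of `B` with the simplex of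
`v` has at most the volume of the intersection of `B` with the simplex of `w`. -/
def Hyperbolic (d : ℕ) : Prop :=
  ∀ (c : EuclideanSpace ℝ (Fin d)) (R : ℝ) (v w : Fin (d + 1) → EuclideanSpace ℝ (Fin d)),
    ‖c‖ < 1 → (∀ i, ‖v i‖ < 1) → (∀ i, ‖w i‖ < 1) → AffineIndependent ℝ v → AffineIndependent ℝ w →
    (∃ s : ℝ, ∀ i j, i ≠ j → coshDist (v i) (v j) = s) → (∃ s : ℝ, ∀ i j, i ≠ j → coshDist (w i) (w j) = s) →
    (∃ q : ℝ, ∀ i, coshDist (w i) c = q) →
    hypVol d (convexHull ℝ (Set.range w)) = hypVol d (convexHull ℝ (Set.range v)) →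
    hypVol d (hypBall c R ∩ convexHull ℝ (Set.range v)) ≤ hypVol d (hypBall c R ∩ convexHull ℝ (Set.range w))

/-- Q1 holds, in `S^d` and in `H^d`, for every `d ≥ 1`, every ball and every regular simplex `T`: among all positions
of a regular simplex, the one concentric with the ball has the largest intersection with it. -/
theorem result : ∀ d : ℕ, 1 ≤ d → Spherical d ∧ Hyperbolic d := by
  intro d hd
  constructor
  · intro e t v w he hv hw hvl hwl hvr hwr hcen hvol
    have e1 : ∀ u : Fin (d + 1) → EuclideanSpace ℝ (Fin (d + 1)), LinearIndependent ℝ u →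
        Measure.hausdorffMeasure (d : ℝ) (sphSimplex u) = BallSimp.sph d (BallSimp.Kc u) := by
      intro u hu
      rw [BallSimp.sph, Measure.restrict_apply (BallSimp.isClosed_KcS u hu).measurableSet]
      congr 1
      ext x
      simp only [sphSimplex, BallSimp.Kc, Set.mem_inter_iff, mem_sphere_zero_iff_norm, Set.mem_ofPred_eq]
      tauto
    have e2 : ∀ u : Fin (d + 1) → EuclideanSpace ℝ (Fin (d + 1)), LinearIndependent ℝ u →
        Measure.hausdorffMeasure (d : ℝ) (sphBall e t ∩ sphSimplex u) = BallSimp.mS u t e := by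
      intro u hu
      rw [BallSimp.mS, BallSimp.sph, Measure.restrict_apply
        ((BallSimp.meas_ballS t e).inter (BallSimp.isClosed_KcS u hu).measurableSet)]
      congr 1
      ext x
      simp only [sphBall, sphSimplex, BallSimp.Kc, Set.mem_inter_iff, mem_sphere_zero_iff_norm, Set.mem_ofPred_eq]
      tauto
    rw [e1 v hvl, e1 w hwl] at hvol
    rw [e2 v hvl, e2 w hwl]
    exact BallSimp.regS_main hd e t v w he hv hw hvl hwl hvr hwr hcen hvol
  · intro c R v w hc hv hw hva hwa hvr hwr hcen hvol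
    exact BallSimp.regH_main c v w hc hv hw hva hwa hvr hwr hcen hvol R

end Pool.Agent.Results.MP_034d00_gt.RegularAnyBall
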