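import Pool.Agent.BallSimp.SphGno

set_option autoImplicit false

open MeasureTheory Set Filter

namespace Pool.Agent.Results.MP_034d00_gt.SphComplement

/-- The gnomonic model of an open hemisphere of `S^d`, centred at its pole `c`: the point `x` of `ℝ^d` stands for the unit
vector `(1, x) / sqrt (1 + |x|^2)` of `ℝ^(d+1)`, and the origin for `c`. This is the spherical volume in the model: the
measure with density `(1 + |x|^2)^(-(d+1)/2)` with respect to Lebesgue measure. -/
noncomputable def sphVol (d : ℕ) : Measure (EuclideanSpace ℝ (Fin d)) :=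
  volume.withDensity (fun x => ENNReal.ofReal ((1 + ‖x‖ ^ 2) ^ (-((d : ℝ) + 1) / 2)))

/-- The cosine of the spherical distance of the points represented by `x` and `y`: the inner product of
`(1, x) / sqrt (1 + |x|^2)` and `(1, y) / sqrt (1 + |y|^2)`. -/
noncomputable def cosDist {d : ℕ} (x y : EuclideanSpace ℝ (Fin d)) : ℝ :=
  (1 + inner ℝ x y) / Real.sqrt ((1 + ‖x‖ ^ 2) * (1 + ‖y‖ ^ 2))

/-- The part in the open hemisphere of the closed geodesic ball about the pole whose radius `r` has `cos r = t`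
(all of that ball, if `0 < t`). -/
def sphBall (d : ℕ) (t : ℝ) : Set (EuclideanSpace ℝ (Fin d)) := {x | t ≤ cosDist x 0}

/-- The simplex with vertices `v 0, …, v d` (geodesic convex hulls are convex hulls in the gnomonic model). -/
def simplex {d : ℕ} (v : Fin (d + 1) → EuclideanSpace ℝ (Fin d)) : Set (EuclideanSpace ℝ (Fin d)) :=
  convexHull ℝ (Set.range v)

/-- The integral over `A` of `cos (dist x c)^(-(d+1))` with respect to the spherical volume, `c` the pole. -/
noncomputable def secInt (d : ℕ) (A : Set (EuclideanSpace ℝ (Fin d))) : ENNReal :=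
  ∫⁻ x in A, ENNReal.ofReal (1 / cosDist x 0 ^ (d + 1)) ∂(sphVol d)

lemma cos_zero {d : ℕ} (x : EuclideanSpace ℝ (Fin d)) : cosDist x 0 = 1 / Real.sqrt (1 + ‖x‖ ^ 2) := by
  simp [cosDist]

lemma cos_pos {d : ℕ} (x : EuclideanSpace ℝ (Fin d)) : 0 < cosDist x 0 := by
  rw [cos_zero]
  have : 0 < Real.sqrt (1 + ‖x‖ ^ 2) := Real.sqrt_pos.mpr (by positivity)
  positivity

/-- the density is a power of the cosine of the distance -/
lemma dn_eq {d : ℕ} (x : EuclideanSpace ℝ (Fin d)) : BallSimp.dn d (‖x‖ ^ 2) = cosDist x 0 ^ (d + 1) := by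
  have h0 : (0 : ℝ) < 1 + ‖x‖ ^ 2 := by positivity
  have h1 : (Real.sqrt (1 + ‖x‖ ^ 2)) ^ (d + 1) = (1 + ‖x‖ ^ 2) ^ (((d : ℝ) + 1) / 2) := by
    rw [Real.sqrt_eq_rpow, ← Real.rpow_natCast ((1 + ‖x‖ ^ 2) ^ (1 / 2 : ℝ)) (d + 1), ← Real.rpow_mul h0.le]
    congr 1
    push_cast
    ring
  rw [cos_zero, BallSimp.dn, one_div, inv_pow, h1, ← Real.rpow_neg h0.le]
  congr 1
  ring

lemma secInt_eq {d : ℕ} {A : Set (EuclideanSpace ℝ (Fin d))} (hA : MeasurableSet A) : secInt d A = volume A := by
  have e : ∀ x : EuclideanSpace ℝ (Fin d), ENNReal.ofReal (1 / cosDist x 0 ^ (d + 1)) =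
      ENNReal.ofReal (1 / BallSimp.dn d (‖x‖ ^ 2)) := fun x => by rw [dn_eq]
  have hm : Measurable fun x : EuclideanSpace ℝ (Fin d) => ENNReal.ofReal (1 / BallSimp.dn d (‖x‖ ^ 2)) :=
    (measurable_const.div (BallSimp.meas_dn' d)).ennreal_ofReal
  unfold secInt
  simp only [e]
  have h := setLIntegral_withDensity_eq_setLIntegral_mul volume (BallSimp.meas_dn d) hm hA
  have h2 : ∫⁻ x in A, ENNReal.ofReal (1 / BallSimp.dn d (‖x‖ ^ 2)) ∂(sphVol d) =
      ∫⁻ x in A, ENNReal.ofReal (BallSimp.dn d (‖x‖ ^ 2)) * ENNReal.ofReal (1 / BallSimp.dn d (‖x‖ ^ 2)) := h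
  rw [h2, ← setLIntegral_one]
  apply setLIntegral_congr_fun hA
  intro x _
  have h0 := BallSimp.dn_pos d (q := ‖x‖ ^ 2) (by positivity)
  beta_reduce
  rw [← ENNReal.ofReal_mul h0.le, mul_one_div_cancel h0.ne', ENNReal.ofReal_one]

lemma ball_eq (d : ℕ) (t : ℝ) : sphBall d t = univ ∨ ∃ r : ℝ, sphBall d t = Metric.closedBall 0 r := by
  rcases le_or_gt t 0 with ht | ht
  · left
    ext x
    simp only [sphBall, mem_ofPred_eq, mem_univ, iff_true]
    exact ht.trans (cos_pos x).le
  · right
    have h1 : ∀ x : EuclideanSpace ℝ (Fin d), t ≤ cosDist x 0 ↔ Real.sqrt (1 + ‖x‖ ^ 2) ≤ 1 / t := by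
      intro x
      have : 0 < Real.sqrt (1 + ‖x‖ ^ 2) := Real.sqrt_pos.mpr (by positivity)
      rw [cos_zero, le_div_iff₀ this, le_div_iff₀ ht, mul_comm]
    have h2 : ∀ x : EuclideanSpace ℝ (Fin d), t ≤ cosDist x 0 ↔ ‖x‖ ^ 2 ≤ (1 / t) ^ 2 - 1 := by
      intro x
      rw [h1, Real.sqrt_le_left (by positivity)]
      constructor <;> intro h <;> linarith
    by_cases h3 : 0 ≤ (1 / t) ^ 2 - 1
    · refine ⟨Real.sqrt ((1 / t) ^ 2 - 1), ?_⟩
      ext x
      simp only [sphBall, mem_ofPred_eq, h2, mem_closedBall_zero_iff]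
      rw [Real.le_sqrt (norm_nonneg x) h3]
    · refine ⟨-1, ?_⟩
      ext x
      simp only [sphBall, mem_ofPred_eq, h2, mem_closedBall_zero_iff]
      constructor
      · intro h4
        exfalso
        have : 0 ≤ ‖x‖ ^ 2 := by positivity
        exact h3 (this.trans h4)
      · intro h4
        have := norm_nonneg x
        linarith

lemma meas_ball (d : ℕ) (t : ℝ) : MeasurableSet (sphBall d t) := by
  rcases ball_eq d t with h | ⟨r, h⟩
  · rw [h]; exact MeasurableSet.univ
  · rw [h]; exact Metric.isClosed_closedBall.measurableSet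

/-- on two given simplices, a ball about the pole can be replaced by a Euclidean one -/
lemma ball_eq' {d : ℕ} (t : ℝ) (v w : Fin (d + 1) → EuclideanSpace ℝ (Fin d)) :
    ∃ r : ℝ, (sphBall d t ∩ simplex v = Metric.closedBall 0 r ∩ simplex v) ∧
      (sphBall d t ∩ simplex w = Metric.closedBall 0 r ∩ simplex w) := by
  rcases ball_eq d t with h | ⟨r, h⟩
  · obtain ⟨r1, h1⟩ := BallSimp.exists_ball v
    obtain ⟨r2, h2⟩ := BallSimp.exists_ball w
    refine ⟨max r1 r2, ?_, ?_⟩
    · rw [h, univ_inter]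
      exact (inter_eq_right.mpr (h1.trans (Metric.closedBall_subset_closedBall (le_max_left _ _)))).symm
    · rw [h, univ_inter]
      exact (inter_eq_right.mpr (h2.trans (Metric.closedBall_subset_closedBall (le_max_right _ _)))).symm
  · exact ⟨r, by rw [h], by rw [h]⟩

lemma reg {d : ℕ} {w : Fin (d + 1) → EuclideanSpace ℝ (Fin d)} (hwa : AffineIndependent ℝ w)
    (hs : ∃ s : ℝ, ∀ i j, i ≠ j → cosDist (w i) (w j) = s) (hq : ∃ q : ℝ, ∀ i, cosDist (w i) 0 = q) :
    ∃ α, BallSimp.Reg w α := by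
  obtain ⟨q, hq⟩ := hq
  obtain ⟨s, hs⟩ := hs
  have h1 : ∀ i, 1 + ‖w i‖ ^ 2 = 1 / q ^ 2 := by
    intro i
    have h2 := hq i
    rw [cos_zero] at h2
    have h3 : (0 : ℝ) < 1 + ‖w i‖ ^ 2 := by positivity
    rw [← h2, div_pow, one_pow, Real.sq_sqrt h3.le, one_div_one_div]
  have h0 : 0 < 1 / q ^ 2 := by rw [← h1 0]; positivity
  obtain ⟨α, -, h⟩ := BallSimp.reg_of_gram w ((BallSimp.affInd_iff w).mp hwa) (1 / q ^ 2 - 1) (s * (1 / q ^ 2) - 1)
    (fun i => by rw [real_inner_self_eq_norm_sq]; linarith [h1 i])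
    (fun i j hij => by
      have h2 := hs i j hij
      rw [cosDist, h1 i, h1 j, Real.sqrt_mul_self h0.le, div_eq_iff h0.ne'] at h2
      linarith)
  exact ⟨α, h⟩

/-- **Spherical space, every dimension `d`.** Let `w` be the vertices of a regular simplex centred at the pole `c`, and
`v` the vertices of any simplex in the open hemisphere about `c` with the same spherical volume. Then for every ball
`B` about `c` (`cos` of its radius `= t`):
(1) the integral of `cos (dist x c)^(-(d+1))` over the part of the simplex outside `B` is smallest for `w`;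
(2) the quotient of the volume of the part in `B` by the integral of `cos (dist x c)^(-(d+1))` over the whole simplex
is largest for `w`;
(3) if the simplex of `v` lies in the ball about `c` of radius `R`, `cos R = ρ > 0`, then
`vol (T_w \ B) ≤ (cos r / cos R)^(d+1) vol (T_v \ B)`, and `vol (B ∩ T_v) ≤ (1 / cos R)^(d+1) vol (B ∩ T_w)`. -/
theorem result : ∀ (d : ℕ) (v w : Fin (d + 1) → EuclideanSpace ℝ (Fin d)),
    AffineIndependent ℝ v → AffineIndependent ℝ w →
    (∃ s : ℝ, ∀ i j, i ≠ j → cosDist (w i) (w j) = s) → (∃ q : ℝ, ∀ i, cosDist (w i) 0 = q) →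
    sphVol d (simplex w) = sphVol d (simplex v) →
    ∀ t : ℝ,
      (secInt d (simplex w \ sphBall d t) ≤ secInt d (simplex v \ sphBall d t)) ∧
      (secInt d (simplex w) * sphVol d (sphBall d t ∩ simplex v) ≤
        secInt d (simplex v) * sphVol d (sphBall d t ∩ simplex w)) ∧
      (∀ ρ : ℝ, 0 < ρ → simplex v ⊆ sphBall d ρ →
        (0 < t → sphVol d (simplex w \ sphBall d t) ≤
          ENNReal.ofReal ((t / ρ) ^ (d + 1)) * sphVol d (simplex v \ sphBall d t)) ∧
        sphVol d (sphBall d t ∩ simplex v) ≤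
          ENNReal.ofReal ((1 / ρ) ^ (d + 1)) * sphVol d (sphBall d t ∩ simplex w)) := by
  intro d v w hva hwa hs hq hvol t
  obtain ⟨α, hw⟩ := reg hwa hs hq
  have hv' := (BallSimp.affInd_iff v).mp hva
  have hw' := (BallSimp.affInd_iff w).mp hwa
  have hvol' : BallSimp.muS d (convexHull ℝ (Set.range w)) = BallSimp.muS d (convexHull ℝ (Set.range v)) := hvol
  have mB := meas_ball d t
  have mv : MeasurableSet (simplex v) := (BallSimp.isClosed_hull v).measurableSet
  have mw : MeasurableSet (simplex w) := (BallSimp.isClosed_hull w).measurableSet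
  obtain ⟨r, hrv, hrw⟩ := ball_eq' t v w
  -- (1), for the Lebesgue measure
  have h1 : volume (simplex w \ sphBall d t) ≤ volume (simplex v \ sphBall d t) := by
    have := BallSimp.compl_vol v w α hv' hw' hw hvol' r
    have e1 : simplex w \ sphBall d t = simplex w \ Metric.closedBall 0 r := by
      rw [← sdiff_inter_self_eq_sdiff, hrw, sdiff_inter_self_eq_sdiff]
    have e2 : simplex v \ sphBall d t = simplex v \ Metric.closedBall 0 r := by
      rw [← sdiff_inter_self_eq_sdiff, hrv, sdiff_inter_self_eq_sdiff]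
    rw [e1, e2]
    exact this
  -- (2), for the Lebesgue measure
  have h2 : volume (simplex w) * sphVol d (sphBall d t ∩ simplex v) ≤
      volume (simplex v) * sphVol d (sphBall d t ∩ simplex w) := by
    rw [hrv, hrw]
    exact BallSimp.ratio v w α hv' hw' hw hvol' r
  refine ⟨?_, ?_, ?_⟩
  · rw [secInt_eq (mw.diff mB), secInt_eq (mv.diff mB)]; exact h1
  · rw [secInt_eq mw, secInt_eq mv]; exact h2
  · intro ρ hρ hsub
    have hρ' : ∀ x ∈ simplex v, ρ ^ (d + 1) ≤ BallSimp.dn d (‖x‖ ^ 2) := by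
      intro x hx
      rw [dn_eq]
      exact pow_le_pow_left₀ hρ.le (hsub hx) _
    have hc : ENNReal.ofReal ((1 / ρ) ^ (d + 1)) * ENNReal.ofReal (ρ ^ (d + 1)) = 1 := by
      rw [← ENNReal.ofReal_mul (by positivity), ← mul_pow, one_div_mul_cancel hρ.ne', one_pow, ENNReal.ofReal_one]
    constructor
    · intro ht
      have h3 : sphVol d (simplex w \ sphBall d t) ≤ ENNReal.ofReal (t ^ (d + 1)) * volume (simplex w \ sphBall d t) := by
        apply BallSimp.muS_le (mw.diff mB)
        intro x hx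
        rw [dn_eq]
        have h4 : ¬ (t ≤ cosDist x 0) := hx.2
        exact pow_le_pow_left₀ (cos_pos x).le (not_le.mp h4).le _
      have h4 : ENNReal.ofReal (ρ ^ (d + 1)) * volume (simplex v \ sphBall d t) ≤ sphVol d (simplex v \ sphBall d t) :=
        BallSimp.le_muS (mv.diff mB) _ fun x hx => hρ' x hx.1
      calc sphVol d (simplex w \ sphBall d t) ≤ ENNReal.ofReal (t ^ (d + 1)) * volume (simplex w \ sphBall d t) := h3
        _ ≤ ENNReal.ofReal (t ^ (d + 1)) * volume (simplex v \ sphBall d t) := by gcongr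
        _ = ENNReal.ofReal (t ^ (d + 1)) * ((ENNReal.ofReal ((1 / ρ) ^ (d + 1)) * ENNReal.ofReal (ρ ^ (d + 1))) *
              volume (simplex v \ sphBall d t)) := by rw [hc, one_mul]
        _ = ENNReal.ofReal (t ^ (d + 1)) * ENNReal.ofReal ((1 / ρ) ^ (d + 1)) *
              (ENNReal.ofReal (ρ ^ (d + 1)) * volume (simplex v \ sphBall d t)) := by ring
        _ ≤ ENNReal.ofReal (t ^ (d + 1)) * ENNReal.ofReal ((1 / ρ) ^ (d + 1)) * sphVol d (simplex v \ sphBall d t) := by
              gcongr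
        _ = _ := by
              rw [← ENNReal.ofReal_mul (by positivity), ← mul_pow, mul_one_div]
    · -- the volume of `T_v` is finite and positive
      have h5 : ENNReal.ofReal (ρ ^ (d + 1)) * volume (simplex v) ≤ volume (simplex w) := by
        refine (BallSimp.le_muS mv _ hρ').trans ?_
        have h6 : BallSimp.muS d (simplex w) ≤ ENNReal.ofReal 1 * volume (simplex w) :=
          BallSimp.muS_le mw 1 fun x _ => BallSimp.dn_le_one d (by positivity)
        rw [ENNReal.ofReal_one, one_mul] at h6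
        exact (le_of_eq hvol'.symm).trans h6
      have hv0 : volume (simplex v) ≠ 0 := by
        have : volume (simplex v) = _ := BallSimp.vol_hull v hv'
        rw [this]
        exact (ENNReal.mul_pos (ENNReal.ofReal_pos.mpr (abs_pos.mpr hv')).ne' (BallSimp.vol_Std_pos d).ne').ne'
      have hvt : volume (simplex v) ≠ ⊤ := (BallSimp.vol_hull_lt v).ne
      have h6 : volume (simplex v) * (ENNReal.ofReal (ρ ^ (d + 1)) * sphVol d (sphBall d t ∩ simplex v)) ≤
          volume (simplex v) * sphVol d (sphBall d t ∩ simplex w) := by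
        refine le_trans ?_ h2
        rw [← mul_assoc, mul_comm (volume (simplex v))]
        gcongr
      have h7 := (ENNReal.mul_le_mul_iff_right hv0 hvt).mp h6
      calc sphVol d (sphBall d t ∩ simplex v)
          = ENNReal.ofReal ((1 / ρ) ^ (d + 1)) * (ENNReal.ofReal (ρ ^ (d + 1)) * sphVol d (sphBall d t ∩ simplex v)) := by
            rw [← mul_assoc, hc, one_mul]
        _ ≤ _ := by gcongr

end Pool.Agent.Results.MP_034d00_gt.SphComplement
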